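import Pool.Agent.Helper29.EV2.Lab
import Pool.Agent.Helper69.S4.MaxPrin

/-!
# S4, leaf (F7): the connected sum

`QQ`: the circles `a`, `b` lie to the left of `X`, the circle `c` to the left of `a`. The letters `(b, X)` commute with `(c, a)`, and a fixed vector `v`
satisfies `v b = t v X` when these letters act; so they do nothing and can be dropped: three circles in a row remain.
-/

set_option autoImplicit false

namespace Pool.Agent.Helper49.S4

open Matrix Pool.Agent.Helper29.Lab Pool.Agent.Helper69.S4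

variable {K : Type} [Fintype K] [DecidableEq K]

/-- The zero condition of a word of pairs of labels. -/
def KerC (t : ℂ) (w : List (K × K)) (x0 : K) : Prop := ∃ v : K → ℂ, v ≠ 0 ∧ v x0 = 0 ∧ Qw t w *ᵥ v = v

/-- One letter. -/
theorem um_apply (t : ℂ) {i j : K} (h : i ≠ j) (v : K → ℂ) (x : K) :
    (Um t i j *ᵥ v) x = if x = i then t * v j else if x = j then v i + (1 - t) * v j else v x := by
  unfold Um Rm
  rw [Matrix.add_mulVec, Matrix.one_mulVec, Matrix.vecMulVec_mulVec, Pi.add_apply]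
  have e1 : (Pi.single i 1 - Pi.single j t : K → ℂ) ⬝ᵥ v = v i - t * v j := by
    rw [sub_dotProduct, single_dotProduct, single_dotProduct, one_mul]
  rw [e1]
  simp only [Pi.smul_apply, Pi.sub_apply, Pi.single_apply, MulOpposite.smul_eq_mul_unop, MulOpposite.unop_op]
  by_cases hx : x = i
  · subst hx
    rw [if_pos rfl, if_neg h, if_pos rfl]
    ring
  · rw [if_neg hx, if_neg hx]
    by_cases hj : x = j
    · subst hj
      rw [if_pos rfl, if_pos rfl]
      ring
    · rw [if_neg hj, if_neg hj]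
      ring

theorem qw_cons (t : ℂ) (p : K × K) (w : List (K × K)) (v : K → ℂ) :
    Qw t (p :: w) *ᵥ v = Qw t w *ᵥ (Um t p.1 p.2 *ᵥ v) := by
  rw [Qw, Matrix.mulVec_mulVec]

theorem qw_app (t : ℂ) (w w' : List (K × K)) (v : K → ℂ) :
    Qw t (w ++ w') *ᵥ v = Qw t w' *ᵥ (Qw t w *ᵥ v) := by
  rw [Qw_append, Matrix.mulVec_mulVec]

/-- Labels which do not occur are not changed. -/
theorem qw_other (t : ℂ) (b : K) : ∀ (w : List (K × K)), (∀ p ∈ w, p.1 ≠ p.2 ∧ b ≠ p.1 ∧ b ≠ p.2) → ∀ v : K → ℂ,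
    (Qw t w *ᵥ v) b = v b := by
  intro w
  induction w with
  | nil => intro _ v; simp [Qw]
  | cons p w ih =>
    intro h v
    obtain ⟨h1, h2, h3⟩ := h p List.mem_cons_self
    rw [qw_cons, ih (fun q hq => h q (List.mem_cons_of_mem _ hq)), um_apply t h1, if_neg h2, if_neg h3]

/-- The letters `(b, X)` next to letters `(c, a)`. -/
theorem qw_pair (t : ℂ) {a b X c : K} (h2 : a ≠ X) (h1 : a ≠ b) (h4 : b ≠ X) (h5 : b ≠ c) (h6 : X ≠ c) (h3 : a ≠ c) :
    ∀ (u : List (K × K)), (∀ x ∈ u, x = (b, X) ∨ x = (c, a)) → ∀ v : K → ℂ,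
      (Qw t u *ᵥ v) b - t * (Qw t u *ᵥ v) X = (-t) ^ (u.count (b, X)) * (v b - t * v X) ∧
      (Qw t u *ᵥ v) b + (Qw t u *ᵥ v) X = v b + v X := by
  intro u
  induction u with
  | nil => intro _ v; simp [Qw]
  | cons p u ih =>
    intro h v
    obtain ⟨e1, e2⟩ := ih (fun q hq => h q (List.mem_cons_of_mem _ hq)) (Um t p.1 p.2 *ᵥ v)
    rw [qw_cons, e1, e2]
    rcases h p List.mem_cons_self with hp | hp
    · subst hp
      have f1 : (Um t b X *ᵥ v) b = t * v X := by rw [um_apply t h4, if_pos rfl]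
      have f2 : (Um t b X *ᵥ v) X = v b + (1 - t) * v X := by rw [um_apply t h4, if_neg h4.symm, if_pos rfl]
      rw [List.count_cons_self, pow_succ]
      simp only
      rw [f1, f2]
      constructor <;> ring
    · subst hp
      have f1 : (Um t c a *ᵥ v) b = v b := by rw [um_apply t h3.symm, if_neg h5, if_neg h1.symm]
      have f2 : (Um t c a *ᵥ v) X = v X := by rw [um_apply t h3.symm, if_neg h6, if_neg h2.symm]
      have h7 : ((c, a) : K × K) ≠ (b, X) := fun h8 => h5 (congrArg Prod.fst h8).symm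
      rw [List.count_cons_of_ne h7]
      simp only
      rw [f1, f2]
      exact ⟨rfl, rfl⟩

/-- If `v b = t v X` the letters `(b, X)` can be dropped. -/
theorem qw_drop (t : ℂ) {a b X c : K} (h2 : a ≠ X) (h1 : a ≠ b) (h4 : b ≠ X) (h5 : b ≠ c) (h6 : X ≠ c) (h3 : a ≠ c) :
    ∀ (u : List (K × K)), (∀ x ∈ u, x = (b, X) ∨ x = (c, a)) → ∀ v : K → ℂ, v b = t * v X →
      Qw t u *ᵥ v = Qw t (u.filter fun p => decide (p ≠ (b, X))) *ᵥ v := by
  intro u
  induction u with
  | nil => intro _ v _; rfl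
  | cons p u ih =>
    intro h v hv
    have h' : ∀ x ∈ u, x = (b, X) ∨ x = (c, a) := fun q hq => h q (List.mem_cons_of_mem _ hq)
    rcases h p List.mem_cons_self with hp | hp
    · subst hp
      have e : Um t b X *ᵥ v = v := by
        funext x
        rw [um_apply t h4]
        by_cases hx : x = b
        · subst hx
          rw [if_pos rfl, hv]
        · rw [if_neg hx]
          by_cases hX : x = X
          · subst hX
            rw [if_pos rfl, hv]
            ring
          · rw [if_neg hX]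
      rw [qw_cons, e, List.filter_cons_of_neg (by simp)]
      exact ih h' v hv
    · subst hp
      have h7 : ((c, a) : K × K) ≠ (b, X) := fun h8 => h5 (congrArg Prod.fst h8).symm
      have h8 : List.filter (fun p => decide (p ≠ (b, X))) ((c, a) :: u) = (c, a) :: List.filter (fun p => decide (p ≠ (b, X))) u :=
        List.filter_cons_of_pos (p := fun p => decide (p ≠ (b, X))) (decide_eq_true h7)
      rw [qw_cons, h8, qw_cons]
      apply ih h'
      show (Um t c a *ᵥ v) b = t * (Um t c a *ᵥ v) X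
      rw [um_apply t h3.symm, um_apply t h3.symm, if_neg h5, if_neg h1.symm, if_neg h6, if_neg h2.symm, hv]

/-- Restriction to a subset of the labels. -/
theorem qw_restrict {K' : Type} [Fintype K'] [DecidableEq K'] (t : ℂ) (e : K' → K) (he : Function.Injective e) :
    ∀ (w : List (K' × K')), (∀ p ∈ w, p.1 ≠ p.2) → ∀ v : K → ℂ,
      (fun i => (Qw t (w.map (Prod.map e e)) *ᵥ v) (e i)) = Qw t w *ᵥ fun i => v (e i) := by
  intro w
  induction w with
  | nil => intro _ v; simp [Qw]
  | cons p w ih =>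
    intro h v
    have h1 := h p List.mem_cons_self
    rw [List.map_cons, qw_cons, ih (fun q hq => h q (List.mem_cons_of_mem _ hq)), qw_cons]
    congr 1
    funext i
    rw [um_apply t h1]
    show (Um t (e p.1) (e p.2) *ᵥ v) (e i) = _
    rw [um_apply t (fun h2 => h1 (he h2))]
    by_cases hi : i = p.1
    · rw [if_pos hi, if_pos (by rw [hi])]
    · rw [if_neg hi, if_neg (fun h2 => hi (he h2))]
      by_cases hj : i = p.2
      · rw [if_pos hj, if_pos (by rw [hj])]
      · rw [if_neg hj, if_neg (fun h2 => hj (he h2))]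

/-- (F7) The reduction to three circles in a row. -/
theorem ker_QQ_iff {a b X c : K} (h1 : a ≠ b) (h2 : a ≠ X) (h3 : a ≠ c) (h4 : b ≠ X) (h5 : b ≠ c) (h6 : X ≠ c)
    (ha : ∀ x, x = a ∨ x = b ∨ x = X ∨ x = c) (u v : List (K × K)) (hu : ∀ x ∈ u, x = (b, X) ∨ x = (c, a)) (hub : (b, X) ∈ u)
    (hv : ∀ x ∈ v, x = (a, X) ∨ x = (c, a)) :
    ∃ w : List (Fin 3 × Fin 3), (∀ x ∈ w, x = (0, 1) ∨ x = (1, 2)) ∧
      ∀ x0 : K, ∃ y0 : Fin 3, ∀ t : ℂ, t ≠ 0 → ‖t‖ < 1 → (KerC t (u ++ v) x0 ↔ KerC t w y0) := by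
  classical
  set e : Fin 3 → K := ![c, a, X] with he
  have e0 : e 0 = c := rfl
  have e1 : e 1 = a := rfl
  have e2 : e 2 = X := rfl
  have inj : Function.Injective e := by
    intro i j hij
    fin_cases i <;> fin_cases j <;> first | rfl | (exfalso; simp only [he] at hij; first | exact h3 hij | exact h3 hij.symm | exact h6 hij | exact h6 hij.symm | exact h2 hij | exact h2 hij.symm)
  have hb : ∀ i, b ≠ e i := by
    intro i
    fin_cases i
    · exact h5
    · exact h1.symm
    · exact h4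
  set w' : List (K × K) := (u.filter fun p => decide (p ≠ (b, X))) ++ v with hw'
  have hw1 : ∀ x ∈ w', x = (a, X) ∨ x = (c, a) := by
    intro x hx
    rw [hw', List.mem_append] at hx
    rcases hx with hx | hx
    · rw [List.mem_filter] at hx
      rcases hu x hx.1 with h | h
      · have := hx.2
        simp [h] at this
      · exact Or.inr h
    · exact hv x hx
  set w : List (Fin 3 × Fin 3) := w'.map fun p => if p = (c, a) then (0, 1) else (1, 2) with hw
  have hww : w.map (Prod.map e e) = w' := by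
    rw [hw, List.map_map]
    conv_rhs => rw [← List.map_id w']
    apply List.map_congr_left
    intro p hp
    rcases hw1 p hp with h | h
    · have h7 : ((a, X) : K × K) ≠ (c, a) := fun h8 => h3 (congrArg Prod.fst h8)
      simp only [Function.comp, h, if_neg h7, Prod.map_apply, e1, e2, id]
    · simp only [Function.comp, h, if_true, Prod.map_apply, e0, e1, id]
  have hne : ∀ p ∈ w, p.1 ≠ p.2 := by
    intro p hp
    rw [hw, List.mem_map] at hp
    obtain ⟨q, _, hq⟩ := hp
    split_ifs at hq <;> rw [← hq] <;> decide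
  have hwm : ∀ x ∈ w, x = (0, 1) ∨ x = (1, 2) := by
    intro p hp
    rw [hw, List.mem_map] at hp
    obtain ⟨q, _, hq⟩ := hp
    split_ifs at hq
    · exact Or.inl hq.symm
    · exact Or.inr hq.symm
  have hvb : ∀ (t : ℂ) (z : K → ℂ), (Qw t v *ᵥ z) b = z b := by
    intro t z
    apply qw_other
    intro p hp
    rcases hv p hp with h | h
    · rw [h]; exact ⟨h2, h1.symm, h4⟩
    · rw [h]; exact ⟨h3.symm, h5, h1.symm⟩
  have hwb : ∀ (t : ℂ) (z : K → ℂ), (Qw t w' *ᵥ z) b = z b := by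
    intro t z
    apply qw_other
    intro p hp
    rcases hw1 p hp with h | h
    · rw [h]; exact ⟨h2, h1.symm, h4⟩
    · rw [h]; exact ⟨h3.symm, h5, h1.symm⟩
  refine ⟨w, hwm, fun x0 => ?_⟩
  -- the base point
  have hx0 : ∃ y0 : Fin 3, (x0 = e y0) ∨ (x0 = b ∧ y0 = 2) := by
    rcases ha x0 with h | h | h | h
    · exact ⟨1, Or.inl h⟩
    · exact ⟨2, Or.inr ⟨h, rfl⟩⟩
    · exact ⟨2, Or.inl h⟩
    · exact ⟨0, Or.inl h⟩
  obtain ⟨y0, hy0⟩ := hx0
  refine ⟨y0, fun t ht ht1 => ?_⟩
  constructor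
  · rintro ⟨z, hz, hz0, hf⟩
    rw [qw_app] at hf
    obtain ⟨g1, g2⟩ := qw_pair t h2 h1 h4 h5 h6 h3 u hu z
    have g3 : (Qw t u *ᵥ z) b = z b := by
      rw [← hvb t (Qw t u *ᵥ z), hf]
    have g4 : (Qw t u *ᵥ z) X = z X := by
      rw [g3] at g2
      exact add_left_cancel g2
    rw [g3, g4] at g1
    have hn : 0 < u.count (b, X) := List.count_pos_iff.2 hub
    have g5 : (-t) ^ (u.count (b, X)) ≠ 1 := by
      intro h
      have h7 := congrArg norm h
      rw [norm_pow, norm_neg, norm_one] at h7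
      exact absurd h7 (pow_lt_one₀ (norm_nonneg t) ht1 hn.ne').ne
    have g6 : z b = t * z X := by
      by_contra hcon
      apply g5
      have h7 : z b - t * z X ≠ 0 := sub_ne_zero.2 hcon
      exact mul_right_cancel₀ h7 (by rw [one_mul]; exact g1.symm)
    rw [qw_drop t h2 h1 h4 h5 h6 h3 u hu z g6, ← qw_app, ← hw', ← hww] at hf
    refine ⟨fun i => z (e i), ?_, ?_, ?_⟩
    · intro h
      apply hz
      have k0 : z c = 0 := congrFun h 0
      have k1 : z a = 0 := congrFun h 1
      have k2 : z X = 0 := congrFun h 2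
      funext x
      rcases ha x with h' | h' | h' | h'
      · rw [h', k1]; rfl
      · rw [h', g6, k2, mul_zero]; rfl
      · rw [h', k2]; rfl
      · rw [h', k0]; rfl
    · rcases hy0 with h | ⟨h, h'⟩
      · show z (e y0) = 0
        rw [← h]
        exact hz0
      · show z (e y0) = 0
        rw [h', e2]
        rw [h, g6] at hz0
        exact (mul_eq_zero.1 hz0).resolve_left ht
    · rw [← qw_restrict t e inj w hne z, hf]
  · rintro ⟨y, hy, hyy, hf⟩
    set z : K → ℂ := fun x => if x = c then y 0 else if x = a then y 1 else if x = X then y 2 else t * y 2 with hz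
    have k0 : z c = y 0 := by simp [hz]
    have k1 : z a = y 1 := by simp [hz, h3]
    have k2 : z X = y 2 := by simp [hz, h6, h2.symm]
    have k3 : z b = t * y 2 := by simp [hz, h5, h1.symm, h4]
    have ke : ∀ i, z (e i) = y i := by
      intro i
      fin_cases i
      · exact k0
      · exact k1
      · exact k2
    have g6 : z b = t * z X := by rw [k3, k2]
    have g7 : Qw t w' *ᵥ z = z := by
      have h7 := qw_restrict t e inj w hne z
      rw [hww, show (fun i => z (e i)) = y from funext ke, hf] at h7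
      funext x
      have h8 : ∀ i, (Qw t w' *ᵥ z) (e i) = z (e i) := fun i => by
        rw [ke]
        exact congrFun h7 i
      rcases ha x with h' | h' | h' | h'
      · rw [h']; exact h8 1
      · rw [h']; exact hwb t z
      · rw [h']; exact h8 2
      · rw [h']; exact h8 0
    refine ⟨z, ?_, ?_, ?_⟩
    · intro h
      apply hy
      funext i
      rw [← ke i, h]
      rfl
    · rcases hy0 with h | ⟨h, h'⟩
      · rw [h, ke]
        exact hyy
      · rw [h, k3]
        rw [h'] at hyy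
        rw [hyy, mul_zero]
    · rw [qw_app, qw_drop t h2 h1 h4 h5 h6 h3 u hu z g6, ← qw_app, ← hw']
      exact g7

/-- (F7) from (F5) for the labels `0, 1, 2`. -/
theorem ker_QQ_of (hP3 : ∀ w : List (Fin 3 × Fin 3), (∀ x ∈ w, x = (0, 1) ∨ x = (1, 2)) →
      ∃ l : List (Fin 3), ∀ (s : ℂ) (x0 : Fin 3), s ≠ 0 → ‖s‖ < 1 → (KerC (s ^ 2) w x0 ↔ (1 - Pw s l).det = 0))
    (a b X c : K) (h1 : a ≠ b) (h2 : a ≠ X) (h3 : a ≠ c) (h4 : b ≠ X) (h5 : b ≠ c) (h6 : X ≠ c)
    (ha : ∀ x, x = a ∨ x = b ∨ x = X ∨ x = c) (u v : List (K × K)) (hu : ∀ x ∈ u, x = (b, X) ∨ x = (c, a)) (hub : (b, X) ∈ u)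
    (hv : ∀ x ∈ v, x = (a, X) ∨ x = (c, a)) :
    ∃ l : List (Fin 3), ∀ (s : ℂ) (x0 : K), s ≠ 0 → ‖s‖ < 1 → (KerC (s ^ 2) (u ++ v) x0 ↔ (1 - Pw s l).det = 0) := by
  obtain ⟨w, hw, H⟩ := ker_QQ_iff h1 h2 h3 h4 h5 h6 ha u v hu hub hv
  obtain ⟨l, hl⟩ := hP3 w hw
  refine ⟨l, fun s x0 hs hs1 => ?_⟩
  obtain ⟨y0, hy0⟩ := H x0
  have hs2 : s ^ 2 ≠ 0 := pow_ne_zero 2 hs
  have hs3 : ‖s ^ 2‖ < 1 := by
    rw [norm_pow]
    exact pow_lt_one₀ (norm_nonneg s) hs1 two_ne_zero
  rw [hy0 (s ^ 2) hs2 hs3]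
  exact hl s y0 hs hs1

end Pool.Agent.Helper49.S4
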